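import Pool.Agent.Helper34.FF.Asm

/-!
# Two firefighters on planar graphs

For every planar graph `G` with at least two vertices the `2`-surviving rate satisfies
`ρ₂(G) > 10⁻¹⁸`; so the class of planar graphs (with at least two vertices) is not
`2`-flammable.  Planarity is defined by rotation systems.
-/

namespace Pool.Agent.Results.MP_7cb822_co.TwoFirefighters

open Finset
open scoped Classical

/-! ## The firefighter process -/

/-- The vertices that are protected at time `t`, if `σ s` is the set of vertices chosen at
time `s = 1, 2, …`. -/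
noncomputable def prot {V : Type} (σ : ℕ → Finset V) (t : ℕ) : Finset V :=
  (Icc 1 t).biUnion σ

/-- The vertices that are burning at time `t`: at time `0` only `v`; at time `t + 1` also all
neighbours of burning vertices that are not protected. -/
noncomputable def burn {V : Type} [Fintype V] (G : SimpleGraph V) (v : V) (σ : ℕ → Finset V) :
    ℕ → Finset V
  | 0 => {v}
  | t + 1 => burn G v σ t ∪
      univ.filter fun y => y ∉ prot σ (t + 1) ∧ ∃ x ∈ burn G v σ t, G.Adj x y

/-- `σ` is a protection strategy for `k` firefighters: at each time `t ≥ 1` at most `k` vertices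
are chosen, and none of them is on fire. -/
def Legal {V : Type} [Fintype V] (G : SimpleGraph V) (k : ℕ) (v : V) (σ : ℕ → Finset V) : Prop :=
  ∀ t, 1 ≤ t → (σ t).card ≤ k ∧ Disjoint (σ t) (burn G v σ (t - 1))

/-- The vertices that never burn. -/
noncomputable def saved {V : Type} [Fintype V] (G : SimpleGraph V) (v : V)
    (σ : ℕ → Finset V) : Finset V :=
  univ.filter fun y => ∀ t, y ∉ burn G v σ t

/-- `snₖ(G, v)`: the largest number of saved vertices over all protection strategies. -/
noncomputable def sn {V : Type} [Fintype V] (k : ℕ) (G : SimpleGraph V) (v : V) : ℕ :=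
  sSup {m | ∃ σ, Legal G k v σ ∧ (saved G v σ).card = m}

/-- The `k`-surviving rate `ρₖ(G)`. -/
noncomputable def rho {V : Type} [Fintype V] (k : ℕ) (G : SimpleGraph V) : ℝ :=
  1 / (Fintype.card V : ℝ) ^ 2 * ∑ v, (sn k G v : ℝ)

/-! ## Planar graphs -/

/-- The reversal of the darts (oriented edges) of `H`. -/
def rev {V : Type} (H : SimpleGraph V) : Equiv.Perm H.Dart :=
  Function.Involutive.toPerm SimpleGraph.Dart.symm SimpleGraph.Dart.symm_involutive

/-- `σ` is a rotation system of `H`: a permutation of the darts of `H` that permutes, for each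
vertex `v`, the darts with initial vertex `v` in a single cycle. -/
def IsRotation {V : Type} (H : SimpleGraph V) (σ : Equiv.Perm H.Dart) : Prop :=
  ∀ d e : H.Dart, σ.SameCycle d e ↔ d.fst = e.fst

/-- The number of faces of a rotation system: the number of cycles of the face permutation
`σ ∘ rev`. -/
noncomputable def numFaces {V : Type} (H : SimpleGraph V) (σ : Equiv.Perm H.Dart) : ℕ :=
  Nat.card (Quotient (Equiv.Perm.SameCycle.setoid (σ * rev H)))

/-- A finite graph is planar if it has at most one vertex or if it is a spanning subgraph of a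
connected graph `H` with a rotation system of genus `0`, that is `|V| - |E| + |F| = 2`. -/
def Planar {V : Type} (G : SimpleGraph V) : Prop :=
  Nat.card V ≤ 1 ∨ ∃ H : SimpleGraph V, G ≤ H ∧ H.Connected ∧
    ∃ σ : Equiv.Perm H.Dart, IsRotation H σ ∧ Nat.card V + numFaces H σ = Nat.card H.edgeSet + 2

/-! ## Comparison with the definitions used in the proof -/

theorem burn_eq {V : Type} [Fintype V] (G : SimpleGraph V) (v : V) (σ : ℕ → Finset V) (t : ℕ) :
    burn G v σ t = Pool.Agent.Helper34.FF.burn G v σ t := by
  induction t with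
  | zero => rfl
  | succ t ih =>
    rw [burn, Pool.Agent.Helper34.FF.burn, ih]
    rfl

theorem legal_iff {V : Type} [Fintype V] (G : SimpleGraph V) (k : ℕ) (v : V)
    (σ : ℕ → Finset V) : Legal G k v σ ↔ Pool.Agent.Helper34.FF.Legal G k v σ := by
  unfold Legal Pool.Agent.Helper34.FF.Legal
  simp only [burn_eq]

theorem saved_eq {V : Type} [Fintype V] (G : SimpleGraph V) (v : V) (σ : ℕ → Finset V) :
    saved G v σ = Pool.Agent.Helper34.FF.saved G v σ := by
  unfold saved Pool.Agent.Helper34.FF.saved
  simp only [burn_eq]

theorem sn_eq {V : Type} [Fintype V] (k : ℕ) (G : SimpleGraph V) (v : V) :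
    sn k G v = Pool.Agent.Helper34.FF.sn k G v := by
  unfold sn Pool.Agent.Helper34.FF.sn
  simp only [legal_iff, saved_eq]

theorem rho_eq {V : Type} [Fintype V] (k : ℕ) (G : SimpleGraph V) :
    rho k G = Pool.Agent.Helper34.FF.rho k G := by
  unfold rho Pool.Agent.Helper34.FF.rho
  simp only [sn_eq]
  ring

theorem planar_bridge {V : Type} [Fintype V] (G : SimpleGraph V) (h2 : 2 ≤ Fintype.card V)
    (h : Planar G) : Helper28.PL.Planar G := by
  rcases h with h | ⟨H, hGH, hc, σ, hσ, he⟩
  · rw [Nat.card_eq_fintype_card] at h
    omega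
  · exact Pool.Agent.Helper34.FF.Rot.planar_of_rot G H h2 hGH hc σ hσ he

/-! ## The theorem -/

/-- **Two firefighters on planar graphs.** Every planar graph `G` with at least two vertices has
`2`-surviving rate `ρ₂(G) > 10⁻¹⁸`. -/
theorem result : ∀ (V : Type) [Fintype V] (G : SimpleGraph V), 2 ≤ Fintype.card V → Planar G →
    (1 : ℝ) / 10 ^ 18 < rho 2 G := by
  intro V _ G h2 hG
  rw [rho_eq]
  exact Pool.Agent.Helper34.FF.planar_rho V G h2 (planar_bridge G h2 hG)

end Pool.Agent.Results.MP_7cb822_co.TwoFirefighters
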